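import Mathlib

set_option autoImplicit false

namespace Pool.Agent.H.Zon
open Polynomial Filter Topology

/-- rescaled Gegenbauer polynomials -/
noncomputable def PP (ν : ℝ) : ℕ → ℝ[X]
  | 0 => 1
  | 1 => C ν * X
  | j + 2 => C (2 * (j : ℝ) + 2 + ν) * X * PP ν (j + 1) - C (((j : ℝ) + 1) * (j + ν)) * PP ν j

theorem PP_AB (ν : ℝ) (j : ℕ) :
    derivative (PP ν (j + 1)) = (C (j : ℝ) + 1) * (X * derivative (PP ν j) + (C (j : ℝ) + C ν) * PP ν j) ∧
    X * derivative (PP ν (j + 1)) - (C (j : ℝ) + 1) * derivative (PP ν j) =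
      (C (j : ℝ) + 1) * PP ν (j + 1) := by
  induction j with
  | zero =>
    have e1 : PP ν (0 + 1) = C ν * X := rfl
    have e0 : PP ν 0 = 1 := rfl
    rw [e1, e0]
    simp only [derivative_mul, derivative_C, derivative_X, derivative_one, Nat.cast_zero, map_zero]
    constructor <;> ring
  | succ j ih =>
    obtain ⟨a, b⟩ := ih
    have e : PP ν (j + 1 + 1) = (2 * C (j : ℝ) + 2 + C ν) * X * PP ν (j + 1) -
        ((C (j : ℝ) + 1) * (C (j : ℝ) + C ν)) * PP ν j := by
      rw [PP]; simp only [map_add, map_mul, map_one, map_ofNat]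
    have d : derivative (PP ν (j + 1 + 1)) = (2 * C (j : ℝ) + 2 + C ν) *
        (PP ν (j + 1) + X * derivative (PP ν (j + 1))) -
        ((C (j : ℝ) + 1) * (C (j : ℝ) + C ν)) * derivative (PP ν j) := by
      rw [PP]
      simp only [derivative_sub, derivative_mul, derivative_C, derivative_X]
      simp only [map_add, map_mul, map_one, map_ofNat]
      ring
    have c : C ((j + 1 : ℕ) : ℝ) = C (j : ℝ) + 1 := by push_cast; simp
    rw [c]
    have A : derivative (PP ν (j + 1 + 1)) = (C (j : ℝ) + 1 + 1) *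
        (X * derivative (PP ν (j + 1)) + (C (j : ℝ) + 1 + C ν) * PP ν (j + 1)) := by
      rw [d]; linear_combination (C (j : ℝ) + C ν) * b
    refine ⟨A, ?_⟩
    rw [A, e]
    linear_combination (C (j : ℝ) + 2) * X * b - (C (j : ℝ) + 2) * a

/-- the Gegenbauer operator -/
noncomputable def LL (ν : ℝ) (f : ℝ[X]) : ℝ[X] :=
  (1 - X ^ 2) * derivative (derivative f) - (C ν + 1) * X * derivative f

theorem LL_PP (ν : ℝ) (j : ℕ) : LL ν (PP ν j) = -(C (j : ℝ) * (C (j : ℝ) + C ν)) * PP ν j := by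
  cases j with
  | zero => simp [LL, PP]
  | succ j =>
    obtain ⟨a, b⟩ := PP_AB ν j
    have c : (1 - X ^ 2) * derivative (PP ν (j + 1)) = (C (j : ℝ) + 1) * (C (j : ℝ) + C ν) * PP ν j -
        (C (j : ℝ) + 1) * X * PP ν (j + 1) := by linear_combination a - X * b
    have d := congrArg derivative c
    simp only [derivative_sub, derivative_mul, derivative_C, derivative_X, derivative_add,
      derivative_one, derivative_X_pow, map_natCast] at d
    have e : C ((j + 1 : ℕ) : ℝ) = C (j : ℝ) + 1 := by push_cast; simp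
    rw [e]
    unfold LL
    simp only [map_natCast] at a b ⊢
    simp only [derivative_natCast, Nat.cast_ofNat] at d
    linear_combination d - ((j : ℝ[X]) + C ν) * b

/-- span of the zonal polynomials of degree at least `k` -/
noncomputable def SS (ν : ℝ) (k : ℕ) : Submodule ℝ ℝ[X] := Submodule.span ℝ {p | ∃ j, k ≤ j ∧ p = PP ν j}

theorem PP_mem (ν : ℝ) {k j : ℕ} (h : k ≤ j) : PP ν j ∈ SS ν k := Submodule.subset_span ⟨j, h, rfl⟩

theorem X_mul_mem {ν : ℝ} (hν : 0 < ν) {f : ℝ[X]} (h : f ∈ SS ν 0) : X * f ∈ SS ν 0 := by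
  induction h using Submodule.span_induction with
  | mem p hp =>
    obtain ⟨j, -, rfl⟩ := hp
    cases j with
    | zero =>
      have : X * PP ν 0 = ν⁻¹ • PP ν 1 := by
        simp [PP, smul_eq_C_mul, ← mul_assoc, ← map_mul, hν.ne']
      rw [this]
      exact Submodule.smul_mem _ _ (PP_mem ν (Nat.zero_le _))
    | succ j =>
      have h0 : (2 * (j : ℝ) + 2 + ν) ≠ 0 := by positivity
      have : X * PP ν (j + 1) = (2 * (j : ℝ) + 2 + ν)⁻¹ •
          (PP ν (j + 2) + (((j : ℝ) + 1) * (j + ν)) • PP ν j) := by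
        rw [PP, smul_eq_C_mul, smul_eq_C_mul, sub_add_cancel, ← mul_assoc, ← mul_assoc, ← map_mul,
          inv_mul_cancel₀ h0]
        simp
      rw [this]
      exact Submodule.smul_mem _ _ (add_mem (PP_mem ν (Nat.zero_le _))
        (Submodule.smul_mem _ _ (PP_mem ν (Nat.zero_le _))))
  | zero => simp
  | add x y _ _ a b => rw [mul_add]; exact add_mem a b
  | smul a x _ b => rw [mul_smul_comm]; exact Submodule.smul_mem _ _ b

theorem pow_mem0 {ν : ℝ} (hν : 0 < ν) (m : ℕ) : (1 + X : ℝ[X]) ^ m ∈ SS ν 0 := by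
  induction m with
  | zero => exact PP_mem ν (j := 0) le_rfl
  | succ m ih =>
    rw [pow_succ', add_mul, one_mul]
    exact add_mem ih (X_mul_mem hν ih)

theorem step_mem (ν : ℝ) (k : ℕ) {f : ℝ[X]} (h : f ∈ SS ν k) :
    LL ν f + C (k : ℝ) * (C (k : ℝ) + C ν) * f ∈ SS ν (k + 1) := by
  induction h using Submodule.span_induction with
  | mem p hp =>
    obtain ⟨j, hj, rfl⟩ := hp
    rw [LL_PP]
    rcases hj.eq_or_lt with rfl | hj
    · simp
    · have : -(C (j : ℝ) * (C (j : ℝ) + C ν)) * PP ν j + C (k : ℝ) * (C (k : ℝ) + C ν) * PP ν j =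
          ((k : ℝ) * (k + ν) - j * (j + ν)) • PP ν j := by
        rw [smul_eq_C_mul]; simp only [map_sub, map_mul, map_add]; ring
      rw [this]
      exact Submodule.smul_mem _ _ (PP_mem ν hj)
  | zero => simp [LL]
  | add x y _ _ a b =>
    convert add_mem a b using 1
    simp only [LL, derivative_add]; ring
  | smul a x _ b =>
    convert Submodule.smul_mem _ a b using 1
    simp only [LL, smul_eq_C_mul, derivative_mul, derivative_C]; ring_nf
    simp only [derivative_mul, derivative_C, derivative_add, derivative_zero]; ring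

/-- convergence inside a fixed finite-dimensional family -/
inductive Conv : (ℕ → ℝ[X]) → ℝ[X] → Prop
  | term (c : ℕ → ℝ) (c₀ : ℝ) (q : ℝ[X]) : Tendsto c atTop (𝓝 c₀) → Conv (fun N => C (c N) * q) (C c₀ * q)
  | add {g h : ℕ → ℝ[X]} {p q : ℝ[X]} : Conv g p → Conv h q → Conv (fun N => g N + h N) (p + q)

theorem Conv.mul {g : ℕ → ℝ[X]} {q : ℝ[X]} (h : Conv g q) (r : ℝ[X]) :
    Conv (fun N => r * g N) (r * q) := by
  induction h with
  | term c c₀ q hc => simpa only [mul_left_comm r] using Conv.term c c₀ (r * q) hc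
  | add _ _ a b => simpa only [mul_add] using a.add b

theorem Conv.der {g : ℕ → ℝ[X]} {q : ℝ[X]} (h : Conv g q) :
    Conv (fun N => derivative (g N)) (derivative q) := by
  induction h with
  | term c c₀ q hc => simpa only [derivative_C_mul] using Conv.term c c₀ (derivative q) hc
  | add _ _ a b => simpa only [derivative_add] using a.add b

theorem Conv.sc {g : ℕ → ℝ[X]} {q : ℝ[X]} (h : Conv g q) {a : ℕ → ℝ} {a₀ : ℝ}
    (ha : Tendsto a atTop (𝓝 a₀)) : Conv (fun N => C (a N) * g N) (C a₀ * q) := by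
  induction h with
  | term c c₀ q hc =>
    simpa only [map_mul, mul_assoc] using Conv.term (fun N => a N * c N) (a₀ * c₀) q (ha.mul hc)
  | add _ _ a b => simpa only [mul_add] using a.add b

theorem Conv.deg {g : ℕ → ℝ[X]} {q : ℝ[X]} (h : Conv g q) : ∃ D, ∀ N, (g N).natDegree ≤ D := by
  induction h with
  | term c c₀ q hc => exact ⟨q.natDegree, fun N => natDegree_C_mul_le _ _⟩
  | add _ _ a b =>
    obtain ⟨D, a⟩ := a
    obtain ⟨E, b⟩ := b
    exact ⟨max D E, fun N => (natDegree_add_le _ _).trans (max_le_max (a N) (b N))⟩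

theorem Conv.unif {g : ℕ → ℝ[X]} {q : ℝ[X]} (h : Conv g q) : ∀ δ > 0,
    ∀ᶠ N in atTop, ∀ t ∈ Set.Icc (-1 : ℝ) 1, |(g N).eval t - q.eval t| ≤ δ := by
  induction h with
  | term c c₀ q hc =>
    intro δ hδ
    obtain ⟨B, hB⟩ := isCompact_Icc.exists_bound_of_continuousOn (f := fun t : ℝ => q.eval t)
      (s := Set.Icc (-1) 1) q.continuous.continuousOn
    have B0 : 0 ≤ B := (norm_nonneg _).trans (hB 0 (by norm_num))
    filter_upwards [Metric.tendsto_nhds.1 hc (δ / (B + 1)) (by positivity)] with N hN t ht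
    rw [Real.dist_eq, lt_div_iff₀ (by positivity)] at hN
    simp only [eval_mul, eval_C]
    rw [← sub_mul, abs_mul]
    have := hB t ht
    rw [Real.norm_eq_abs] at this
    nlinarith [abs_nonneg (c N - c₀)]
  | add _ _ a b =>
    intro δ hδ
    filter_upwards [a (δ / 2) (by positivity), b (δ / 2) (by positivity)] with N h1 h2 t ht
    have := h1 t ht
    have := h2 t ht
    simp only [eval_add]
    rw [abs_le] at *
    constructor <;> linarith

theorem LL_pow (ν : ℝ) (m : ℕ) (Q : ℝ[X]) (l : ℝ[X]) :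
    LL ν ((1 + X) ^ (m + 1) * Q) + l * ((1 + X) ^ (m + 1) * Q) = (1 + X) ^ m *
      (C ((m : ℝ) * (m + 1)) * ((1 - X) * Q) +
        C (m : ℝ) * (2 * (1 - X ^ 2) * derivative Q + (-((C ν + 1) * X)) * Q) +
        ((1 - X ^ 2) * (2 * derivative Q + (1 + X) * derivative (derivative Q)) +
          (-((C ν + 1) * X)) * (Q + (1 + X) * derivative Q) + l * (1 + X) * Q)) := by
  have k : ∀ (m : ℕ) (R : ℝ[X]), (1 + X) * derivative ((1 + X) ^ m * R) =
      (1 + X) ^ m * (C (m : ℝ) * R + (1 + X) * derivative R) := fun m R => by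
    cases m with
    | zero => simp
    | succ m =>
      simp only [derivative_mul, derivative_pow_succ, derivative_add, derivative_one, derivative_X]
      push_cast
      simp only [map_add, map_one]
      ring
  have d : derivative ((1 + X) ^ (m + 1) * Q) =
      (1 + X) ^ m * ((C (m : ℝ) + 1) * Q + (1 + X) * derivative Q) := by
    simp only [derivative_mul, derivative_pow_succ, derivative_add, derivative_one, derivative_X]
    simp only [map_add, map_one]
    ring
  have k2 := k m ((C (m : ℝ) + 1) * Q + (1 + X) * derivative Q)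
  unfold LL
  rw [d]
  simp only [derivative_mul, derivative_add, derivative_one, derivative_X, derivative_C] at k2 ⊢
  simp only [map_add, map_mul, map_one]
  linear_combination (1 - X) * k2

theorem family {ν : ℝ} (hν : 0 < ν) (k : ℕ) : ∀ c : ℕ, ∃ g : ℕ → ℝ[X], Conv g ((1 - X) ^ k) ∧
    ∀ N, (1 + X) ^ (N + c) * g N ∈ SS ν k := by
  induction k with
  | zero =>
    intro c
    refine ⟨fun _ => C 1 * 1, by simpa using Conv.term (fun _ => 1) 1 1 tendsto_const_nhds, fun N => ?_⟩
    simpa using pow_mem0 hν (N + c)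
  | succ k ih =>
    intro c
    obtain ⟨g, hg, hm⟩ := ih (c + 1)
    set l : ℝ[X] := C (k : ℝ) * (C (k : ℝ) + C ν) with hl
    have t0 : Tendsto (fun N : ℕ => ((N : ℝ) + 1)⁻¹) atTop (𝓝 0) := by
      simpa using tendsto_one_div_add_atTop_nhds_zero_nat (𝕜 := ℝ)
    have t1 : ∀ a : ℝ, Tendsto (fun N : ℕ => ((N : ℝ) + 1)⁻¹ * (N + a)) atTop (𝓝 1) := fun a => by
      have := (t0.mul_const (a - 1)).const_add 1
      simp only [zero_mul, add_zero] at this
      refine this.congr fun N => ?_
      have : (N : ℝ) + 1 ≠ 0 := by positivity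
      field_simp
      ring
    have c1 := (hg.mul (1 - X)).sc ((t1 c).mul (t1 (c + 1)))
    have c2 := ((hg.der.mul (2 * (1 - X ^ 2))).add (hg.mul (-((C ν + 1) * X)))).sc (t0.mul (t1 c))
    have c3 := (((((hg.der.mul 2).add (hg.der.der.mul (1 + X))).mul (1 - X ^ 2)).add
      ((hg.add (hg.der.mul (1 + X))).mul (-((C ν + 1) * X)))).add (hg.mul (l * (1 + X)))).sc
      (t0.mul t0)
    have c4 := (c1.add c2).add c3
    simp only [mul_one, map_one, one_mul, zero_mul, map_zero, add_zero, ← pow_succ'] at c4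
    refine ⟨_, c4, fun N => ?_⟩
    have := Submodule.smul_mem _ (((N : ℝ) + 1)⁻¹ * ((N : ℝ) + 1)⁻¹) (step_mem ν k (hm N))
    rw [← add_assoc, ← hl, LL_pow] at this
    convert this using 1
    rw [smul_eq_C_mul]
    push_cast
    simp only [map_add, map_mul, map_one]
    ring

theorem good {ν : ℝ} (hν : 0 < ν) (k : ℕ) : ∃ D : ℕ, ∀ η : ℝ, 0 < η → η ≤ 1 →
    ∃ f ∈ SS ν k, f.eval 0 ≠ 0 ∧ ∃ T : Finset ℝ, T.card ≤ D ∧ (∀ t ∈ T, 1 - t ^ 2 ≤ 2 * η) ∧
      ∀ t ∈ Set.Icc (-1 : ℝ) 1, f.eval t = 0 → t ∈ T := by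
  classical
  obtain ⟨g, hg, hm⟩ := family hν k 0
  obtain ⟨D, hD⟩ := hg.deg
  refine ⟨D + 1, fun η h0 h1 => ?_⟩
  obtain ⟨N, hN⟩ := (hg.unif (η ^ k / 2) (by positivity)).exists
  have pos : ∀ t ∈ Set.Icc (-1 : ℝ) 1, t ≤ 1 - η → 0 < (g N).eval t := fun t ht h => by
    have a := (abs_le.1 (hN t ht)).1
    simp only [eval_pow, eval_sub, eval_one, eval_X] at a
    have : η ^ k ≤ (1 - t) ^ k := pow_le_pow_left₀ h0.le (by linarith) k
    have : 0 < η ^ k := by positivity
    linarith
  have p0 := pos 0 (by norm_num) (by linarith)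
  have g0 : g N ≠ 0 := fun h => by simp [h] at p0
  refine ⟨_, hm N, by simpa using p0.ne', insert (-1)
    ((g N).roots.toFinset.filter fun t => 1 - t ^ 2 ≤ 2 * η), ?_, ?_, fun t ht h => ?_⟩
  · refine (Finset.card_insert_le _ _).trans (Nat.succ_le_succ ?_)
    exact (Finset.card_filter_le _ _).trans ((Multiset.toFinset_card_le _).trans
      ((card_roots' _).trans (hD N)))
  · intro t ht
    rcases Finset.mem_insert.1 ht with rfl | ht
    · linarith
    · exact (Finset.mem_filter.1 ht).2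
  · simp only [eval_mul, eval_pow, eval_add, eval_one, eval_X, mul_eq_zero] at h
    rcases h with h | h
    · have := pow_eq_zero_iff (M₀ := ℝ) (a := 1 + t) (n := N + 0)
      have e : 1 + t = 0 := eq_zero_of_pow_eq_zero h
      exact Finset.mem_insert.2 (Or.inl (by linarith))
    · refine Finset.mem_insert_of_mem (Finset.mem_filter.2 ⟨?_, ?_⟩)
      · simpa [g0] using h
      · have : 1 - η < t := by
          by_contra c
          exact (pos t ht (not_lt.1 c)).ne' h
        nlinarith [ht.2]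

end Pool.Agent.H.Zon
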