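import Pool.Agent.H.MP_a2f83a_an.A

set_option autoImplicit false

namespace Pool.Agent.H.Zon
open MvPolynomial InnerProductSpace

variable {n : ℕ}

/-- evaluation of a polynomial on Euclidean space -/
noncomputable def ev (p : MvPolynomial (Fin n) ℝ) (x : EuclideanSpace ℝ (Fin n)) : ℝ :=
  eval (fun i => x i) p

theorem ev_smooth (p : MvPolynomial (Fin n) ℝ) {m : WithTop ℕ∞} : ContDiff ℝ m (ev p) := by
  induction p using MvPolynomial.induction_on with
  | C a => unfold ev; simp only [eval_C]; exact contDiff_const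
  | add p q a b => unfold ev at *; simp only [map_add]; exact a.add b
  | mul_X p i a =>
    unfold ev at *
    simp only [map_mul, eval_X]
    exact a.mul (EuclideanSpace.proj (𝕜 := ℝ) i).contDiff

theorem ev_fderiv (p : MvPolynomial (Fin n) ℝ) (x : EuclideanSpace ℝ (Fin n)) (i : Fin n) :
    fderiv ℝ (ev p) x (EuclideanSpace.single i 1) = ev (pderiv i p) x := by
  induction p using MvPolynomial.induction_on with
  | C a => unfold ev; simp
  | add p q a b =>
    have e : ev (p + q) = ev p + ev q := by funext y; simp [ev]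
    rw [e, fderiv_add ((ev_smooth p (m := 1)).differentiable one_ne_zero x)
      ((ev_smooth q (m := 1)).differentiable one_ne_zero x)]
    simp only [ContinuousLinearMap.add_apply, a, b]
    simp [ev]
  | mul_X p j a =>
    have e : ev (p * X j) = ev p * fun y => (EuclideanSpace.proj (𝕜 := ℝ) j) y := by
      funext y; simp [ev]
    rw [e, fderiv_mul ((ev_smooth p (m := 1)).differentiable one_ne_zero x)
      (EuclideanSpace.proj (𝕜 := ℝ) j).differentiableAt, ContinuousLinearMap.fderiv]
    simp only [ContinuousLinearMap.add_apply, ContinuousLinearMap.smul_apply, a]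
    by_cases h : i = j
    · subst h; simp [ev]
    · simp [ev, h, Ne.symm h, pderiv_X, Pi.single_apply]

/-- formal Laplacian -/
noncomputable def lap (p : MvPolynomial (Fin n) ℝ) : MvPolynomial (Fin n) ℝ :=
  ∑ i, pderiv i (pderiv i p)

theorem ev_harm (p : MvPolynomial (Fin n) ℝ) (h : lap p = 0) (x : EuclideanSpace ℝ (Fin n)) :
    HarmonicAt (ev p) x := by
  refine ⟨(ev_smooth p).contDiffAt, Filter.Eventually.of_forall fun y => ?_⟩
  rw [laplacian_eq_iteratedFDeriv_orthonormalBasis _ (EuclideanSpace.basisFun (Fin n) ℝ)]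
  have : ∀ i : Fin n, iteratedFDeriv ℝ 2 (ev p) y
      ![EuclideanSpace.basisFun (Fin n) ℝ i, EuclideanSpace.basisFun (Fin n) ℝ i] =
      ev (pderiv i (pderiv i p)) y := fun i => by
    rw [iteratedFDeriv_two_apply, ← ev_fderiv]
    have e : ev (pderiv i p) = fun z => fderiv ℝ (ev p) z (EuclideanSpace.single i 1) := by
      funext z; rw [ev_fderiv]
    have d : DifferentiableAt ℝ (fderiv ℝ (ev p)) y :=
      ((ev_smooth p (m := 2)).fderiv_right (m := 1) le_rfl).differentiable one_ne_zero y
    rw [e, fderiv_clm_apply d (differentiableAt_const _)]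
    simp
  simp only [this]
  have e : ∑ i, ev (pderiv i (pderiv i p)) y = ev (lap p) y := by simp [ev, lap]
  rw [e, h]
  simp [ev]

theorem vanish (p : MvPolynomial (Fin n) ℝ) {j : ℕ} (h : ∀ x, ev p ((2 : ℝ) • x) = 2 ^ j * ev p x)
    {i : ℕ} (hi : i < j) : iteratedFDeriv ℝ i (ev p) 0 = 0 := by
  set L : EuclideanSpace ℝ (Fin n) →L[ℝ] EuclideanSpace ℝ (Fin n) :=
    (2 : ℝ) • ContinuousLinearMap.id ℝ _ with hL
  have e : ev p ∘ L = ((2 : ℝ) ^ j) • ev p := by funext x; simp [hL, h]
  have a := L.iteratedFDeriv_comp_right (ev_smooth p (m := i)) 0 (i := i) le_rfl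
  rw [e, iteratedFDeriv_const_smul_apply (ev_smooth p).contDiffAt, map_zero] at a
  ext m
  have b := congrArg (fun T => T m) a
  simp only [ContinuousMultilinearMap.smul_apply,
    ContinuousMultilinearMap.compContinuousLinearMap_apply, hL, ContinuousLinearMap.smul_apply,
    ContinuousLinearMap.id_apply] at b
  rw [ContinuousMultilinearMap.map_smul_univ] at b
  simp only [Finset.prod_const, Finset.card_univ, Fintype.card_fin, smul_eq_mul] at b
  have : (2 : ℝ) ^ i < 2 ^ j := pow_lt_pow_right₀ (by norm_num) hi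
  have c : ((2 : ℝ) ^ j - 2 ^ i) * iteratedFDeriv ℝ i (ev p) 0 m = 0 := by linarith
  simpa [sub_eq_zero, this.ne'] using c

/-- squared radius -/
noncomputable def rr (n : ℕ) : MvPolynomial (Fin n) ℝ := ∑ i, X i ^ 2

theorem pd_rr (i : Fin n) : pderiv i (rr n) = 2 * X i := by
  unfold rr
  rw [map_sum, Finset.sum_eq_single i]
  · simp
  · intro j _ h; simp [pderiv_X, Pi.single_apply, h]
  · simp

/-- Euler operator -/
noncomputable def eul (p : MvPolynomial (Fin n) ℝ) : MvPolynomial (Fin n) ℝ := ∑ i, X i * pderiv i p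

theorem pd_comm (i j : Fin n) (p : MvPolynomial (Fin n) ℝ) :
    pderiv i (pderiv j p) = pderiv j (pderiv i p) := by
  induction p using MvPolynomial.induction_on with
  | C a => simp
  | add p q a b => simp only [map_add, a, b]
  | mul_X p k a =>
    simp only [pderiv_mul, map_add, a, pderiv_X, Pi.single_apply]
    split_ifs <;> simp <;> ring

theorem lap_pd (i : Fin n) (p : MvPolynomial (Fin n) ℝ) : lap (pderiv i p) = pderiv i (lap p) := by
  unfold lap
  rw [map_sum]
  exact Finset.sum_congr rfl fun j _ => by rw [pd_comm j i, pd_comm j i]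

theorem eul_pd (i : Fin n) (p : MvPolynomial (Fin n) ℝ) :
    eul (pderiv i p) = pderiv i (eul p) - pderiv i p := by
  unfold eul
  rw [map_sum]
  simp only [pderiv_mul, Finset.sum_add_distrib, pderiv_X, Pi.single_apply, pd_comm i]
  simp

theorem lap_X (i : Fin n) (p : MvPolynomial (Fin n) ℝ) :
    lap (X i * p) = 2 * pderiv i p + X i * lap p := by
  unfold lap
  have : ∀ j : Fin n, pderiv j (pderiv j (X i * p)) =
      (if i = j then 2 * pderiv j p else 0) + X i * pderiv j (pderiv j p) := fun j => by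
    simp only [pderiv_mul, map_add, pderiv_X, Pi.single_apply]
    split_ifs <;> simp <;> ring
  simp only [this, Finset.sum_add_distrib, Finset.mul_sum]
  simp

theorem lap_rr (p : MvPolynomial (Fin n) ℝ) :
    lap (rr n * p) = 2 * n * p + 4 * eul p + rr n * lap p := by
  unfold lap eul
  have : ∀ j : Fin n, pderiv j (pderiv j (rr n * p)) =
      2 * p + 4 * (X j * pderiv j p) + rr n * pderiv j (pderiv j p) := fun j => by
    simp only [pderiv_mul, map_add, pd_rr, pderiv_X_self]
    have : pderiv j (2 : MvPolynomial (Fin n) ℝ) = 0 := by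
      rw [← map_ofNat (C : ℝ →+* MvPolynomial (Fin n) ℝ) 2]; exact pderiv_C
    rw [this]
    ring
  simp only [this, Finset.sum_add_distrib, Finset.mul_sum]
  simp
  ring

theorem eul_X (i : Fin n) (p : MvPolynomial (Fin n) ℝ) : eul (X i * p) = X i * p + X i * eul p := by
  unfold eul
  have : ∀ j : Fin n, X j * pderiv j (X i * p) =
      (if i = j then X j * p else 0) + X i * (X j * pderiv j p) := fun j => by
    simp only [pderiv_mul, pderiv_X, Pi.single_apply]
    split_ifs <;> ring
  simp only [this, Finset.sum_add_distrib, Finset.mul_sum]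
  simp

theorem eul_rr (p : MvPolynomial (Fin n) ℝ) : eul (rr n * p) = 2 * (rr n * p) + rr n * eul p := by
  unfold eul
  have : ∀ j : Fin n, X j * pderiv j (rr n * p) =
      2 * (X j ^ 2 * p) + rr n * (X j * pderiv j p) := fun j => by
    simp only [pderiv_mul, pd_rr]
    ring
  simp only [this, Finset.sum_add_distrib, ← Finset.mul_sum, ← Finset.sum_mul]
  rfl

theorem lap_C (a : ℝ) (p : MvPolynomial (Fin n) ℝ) : lap (C a * p) = C a * lap p := by
  simp only [lap, pderiv_C_mul, Finset.mul_sum]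
theorem lap_sub (p q : MvPolynomial (Fin n) ℝ) : lap (p - q) = lap p - lap q := by
  simp only [lap, map_sub, Finset.sum_sub_distrib]
theorem lap_add (p q : MvPolynomial (Fin n) ℝ) : lap (p + q) = lap p + lap q := by
  simp only [lap, map_add, Finset.sum_add_distrib]
theorem eul_C (a : ℝ) (p : MvPolynomial (Fin n) ℝ) : eul (C a * p) = C a * eul p := by
  simp only [eul, pderiv_C_mul, Finset.mul_sum, mul_left_comm]
theorem eul_sub (p q : MvPolynomial (Fin n) ℝ) : eul (p - q) = eul p - eul q := by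
  simp only [eul, map_sub, mul_sub, Finset.sum_sub_distrib]

/-- zonal solid harmonics in dimension `d + 2` -/
noncomputable def UU (d : ℕ) : ℕ → MvPolynomial (Fin (d + 2)) ℝ
  | 0 => 1
  | j + 1 => C (2 * (j : ℝ) + d) * (X 0 * UU d j) - rr _ * pderiv 0 (UU d j)

theorem UU_harm (d j : ℕ) : lap (UU d j) = 0 ∧ eul (UU d j) = C (j : ℝ) * UU d j := by
  induction j with
  | zero => simp [UU, lap, eul]
  | succ j ih =>
    obtain ⟨a, b⟩ := ih
    rw [UU]
    constructor
    · rw [lap_sub, lap_C, lap_X, lap_rr, lap_pd, eul_pd, a, b, pderiv_C_mul]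
      simp only [map_add, map_mul, map_natCast, map_ofNat, map_zero]
      push_cast
      ring
    · rw [eul_sub, eul_C, eul_X, eul_rr, eul_pd, b, pderiv_C_mul]
      push_cast
      simp only [map_add, map_one]
      ring

theorem UU_pd (d j : ℕ) : pderiv 0 (UU d (j + 1)) = C (((j : ℝ) + 1) * (j + d)) * UU d j := by
  induction j with
  | zero => simp [UU]
  | succ j ih =>
    rw [UU, ih]
    have e := UU.eq_2 d j
    simp only [map_sub, pderiv_C_mul, pderiv_mul, pd_rr, pderiv_X_self, ih, pderiv_C]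
    push_cast
    simp only [map_add, map_mul, map_one, map_ofNat, map_natCast] at e ⊢
    linear_combination (-((j : MvPolynomial (Fin (d + 2)) ℝ) + 1) * (j + d)) * e

theorem ev_rr (x : EuclideanSpace ℝ (Fin n)) : eval (fun i => x i) (rr n) = ‖x‖ ^ 2 := by
  simp [rr, EuclideanSpace.real_norm_sq_eq]

theorem ev_UU (d j : ℕ) (x : EuclideanSpace ℝ (Fin (d + 2))) :
    ev (UU d (j + 2)) x = (2 * j + 2 + d) * x 0 * ev (UU d (j + 1)) x -
      (j + 1) * (j + d) * ‖x‖ ^ 2 * ev (UU d j) x := by
  rw [UU, UU_pd]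
  simp only [ev, map_sub, map_mul, eval_C, eval_X, ev_rr]
  push_cast
  ring

theorem ev_UU0 (d : ℕ) (x : EuclideanSpace ℝ (Fin (d + 2))) : ev (UU d 0) x = 1 := by simp [ev, UU]
theorem ev_UU1 (d : ℕ) (x : EuclideanSpace ℝ (Fin (d + 2))) : ev (UU d 1) x = d * x 0 := by
  simp [ev, UU]

theorem UU_hom (d j : ℕ) (x : EuclideanSpace ℝ (Fin (d + 2))) :
    ev (UU d j) ((2 : ℝ) • x) = 2 ^ j * ev (UU d j) x := by
  induction j using Nat.twoStepInduction with
  | zero => simp [ev_UU0]
  | one => simp [ev_UU1]; ring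
  | more j a b =>
    rw [ev_UU, ev_UU, a, b, norm_smul]
    simp only [PiLp.smul_apply, smul_eq_mul, Real.norm_ofNat]
    ring

theorem UU_sph (d j : ℕ) (x : EuclideanSpace ℝ (Fin (d + 2))) (hx : ‖x‖ = 1 / 2) :
    2 ^ j * ev (UU d j) x = (PP d j).eval (2 * x 0) := by
  induction j using Nat.twoStepInduction with
  | zero => simp [ev_UU0, PP]
  | one => simp [ev_UU1, PP]; ring
  | more j a b =>
    rw [ev_UU, PP, hx]
    simp only [Polynomial.eval_sub, Polynomial.eval_mul, Polynomial.eval_C, Polynomial.eval_X, ← a,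
      ← b]
    ring

theorem extend (d k : ℕ) {f : Polynomial ℝ} (h : f ∈ SS d k) :
    ∃ p : MvPolynomial (Fin (d + 2)) ℝ, lap p = 0 ∧ (∀ i < k, iteratedFDeriv ℝ i (ev p) 0 = 0) ∧
      ∀ x, ‖x‖ = 1 / 2 → ev p x = f.eval (2 * x 0) := by
  have sm : ∀ (a : ℝ) (p : MvPolynomial (Fin (d + 2)) ℝ), ev (C a * p) = a • ev p := fun a p => by
    funext x; simp [ev]
  induction h using Submodule.span_induction with
  | mem q hq =>
    obtain ⟨j, hj, rfl⟩ := hq
    refine ⟨C (2 ^ j) * UU d j, by rw [lap_C, (UU_harm d j).1, mul_zero], fun i hi => ?_,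
      fun x hx => ?_⟩
    · rw [sm, iteratedFDeriv_const_smul_apply (ev_smooth _).contDiffAt,
        vanish _ (UU_hom d j) (hi.trans_le hj), smul_zero]
    · rw [sm, ← UU_sph d j x hx]; rfl
  | zero =>
    refine ⟨0, by simp [lap], fun i _ => ?_, fun x _ => by simp [ev]⟩
    have : ev (0 : MvPolynomial (Fin (d + 2)) ℝ) = fun _ => 0 := by funext x; simp [ev]
    rw [this]; simp
  | add x y _ _ a b =>
    obtain ⟨p, p1, p2, p3⟩ := a
    obtain ⟨q, q1, q2, q3⟩ := b
    have e : ev (p + q) = ev p + ev q := by funext y; simp [ev]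
    refine ⟨p + q, by rw [lap_add, p1, q1, add_zero], fun i hi => ?_, fun z hz => ?_⟩
    · rw [e, iteratedFDeriv_add_apply (ev_smooth _).contDiffAt (ev_smooth _).contDiffAt, p2 i hi,
        q2 i hi, add_zero]
    · rw [e, Pi.add_apply, p3 z hz, q3 z hz, Polynomial.eval_add]
  | smul a x _ b =>
    obtain ⟨p, p1, p2, p3⟩ := b
    refine ⟨C a * p, by rw [lap_C, p1, mul_zero], fun i hi => ?_, fun z hz => ?_⟩
    · rw [sm, iteratedFDeriv_const_smul_apply (ev_smooth _).contDiffAt, p2 i hi, smul_zero]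
    · rw [sm, Pi.smul_apply, p3 z hz, Polynomial.eval_smul]

end Pool.Agent.H.Zon
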