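import Pool.Agent.H.MP_a2f83a_an.B

set_option autoImplicit false

namespace Pool.Agent.H.Zon
open MeasureTheory Set Metric
open scoped ENNReal NNReal

/-- stereographic chart of an equatorial sphere -/
noncomputable def st (d : ℕ) (σ : ℝ) (y : EuclideanSpace ℝ (Fin d)) : EuclideanSpace ℝ (Fin (d + 2)) :=
  WithLp.toLp 2 (Fin.cons 0 (Fin.cons (σ * ((1 - ‖y‖ ^ 2) / (1 + ‖y‖ ^ 2)))
    fun i => 2 * y i / (1 + ‖y‖ ^ 2)))

theorem st_smooth (d : ℕ) (σ : ℝ) : ContDiff ℝ 1 (st d σ) := by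
  have h : ContDiff ℝ 1 fun y : EuclideanSpace ℝ (Fin d) => ‖y‖ ^ 2 := contDiff_norm_sq ℝ
  have h0 : ∀ y : EuclideanSpace ℝ (Fin d), 1 + ‖y‖ ^ 2 ≠ 0 := fun y => by positivity
  rw [contDiff_euclidean]
  intro i
  refine Fin.cases ?_ (fun i => Fin.cases ?_ (fun i => ?_) i) i
  · simpa [st] using contDiff_const
  · simp only [st, Fin.cons_succ, Fin.cons_zero]
    exact contDiff_const.mul ((contDiff_const.sub h).div (contDiff_const.add h) h0)
  · simp only [st, Fin.cons_succ]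
    exact (contDiff_const.mul (EuclideanSpace.proj (𝕜 := ℝ) i).contDiff).div
      (contDiff_const.add h) h0

/-- the equatorial unit sphere -/
def eqs (d : ℕ) : Set (EuclideanSpace ℝ (Fin (d + 2))) := {x | ‖x‖ = 1 ∧ x 0 = 0}

theorem eqs_sub (d : ℕ) : eqs d ⊆ st d 1 '' closedBall 0 1 ∪ st d (-1) '' closedBall 0 1 := by
  rintro x ⟨h1, h0⟩
  have key : ∀ σ : ℝ, σ ^ 2 = 1 → 0 ≤ σ * x 1 → x ∈ st d σ '' closedBall 0 1 := fun σ hσ hx => by
    set h := σ * x 1 with hh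
    set y : EuclideanSpace ℝ (Fin d) := WithLp.toLp 2 fun i => x i.succ.succ / (1 + h) with hy
    have n : ‖x‖ ^ 2 = x 0 ^ 2 + (x 1 ^ 2 + ∑ i : Fin d, x i.succ.succ ^ 2) := by
      rw [EuclideanSpace.real_norm_sq_eq, Fin.sum_univ_succ, Fin.sum_univ_succ]; rfl
    have h2 : h ^ 2 = x 1 ^ 2 := by rw [hh, mul_pow, hσ, one_mul]
    have p : 0 < 1 + h := by linarith
    have ny : ‖y‖ ^ 2 = (1 - h) / (1 + h) := by
      rw [EuclideanSpace.real_norm_sq_eq]
      simp only [hy, div_pow, ← Finset.sum_div]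
      have : ∑ i : Fin d, x i.succ.succ ^ 2 = (1 - h) * (1 + h) := by
        rw [h1, h0] at n; linarith
      rw [this]
      field_simp
    refine ⟨y, ?_, ?_⟩
    · rw [mem_closedBall_zero_iff]
      apply le_trans (le_abs_self _) (abs_le_of_sq_le_sq _ zero_le_one)
      rw [ny, div_le_iff₀ p]
      linarith
    · ext i
      refine Fin.cases ?_ (fun i => Fin.cases ?_ (fun i => ?_) i) i
      · simp [st, h0]
      · simp only [st, Fin.cons_succ, Fin.cons_zero, ny]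
        have : (1 - (1 - h) / (1 + h)) / (1 + (1 - h) / (1 + h)) = h := by field_simp; ring
        rw [this, hh, ← mul_assoc, ← sq, hσ, one_mul]
        rfl
      · simp only [st, Fin.cons_succ, ny]
        simp only [hy]
        field_simp
        ring
  rcases le_total 0 (x 1) with c | c
  · exact Or.inl (key 1 (by norm_num) (by linarith))
  · exact Or.inr (key (-1) (by norm_num) (by linarith))

theorem eqs_fin (d : ℕ) : μH[d] (eqs d) < ∞ := by
  have key : ∀ σ, μH[d] (st d σ '' closedBall 0 1) < ∞ := fun σ => by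
    obtain ⟨K, hK⟩ := (st_smooth d σ).contDiffOn.exists_lipschitzOnWith one_ne_zero
      (convex_closedBall 0 1) (isCompact_closedBall 0 1)
    refine (hK.hausdorffMeasure_image_le (Nat.cast_nonneg d)).trans_lt (ENNReal.mul_lt_top ?_ ?_)
    · exact ENNReal.rpow_lt_top_of_nonneg (Nat.cast_nonneg d) ENNReal.coe_ne_top
    · have := isAddHaarMeasure_hausdorffMeasure (E := EuclideanSpace ℝ (Fin d))
      rw [finrank_euclideanSpace, Fintype.card_fin] at this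
      exact (isCompact_closedBall 0 1).measure_lt_top
  exact (measure_mono (eqs_sub d)).trans_lt ((measure_union_le _ _).trans_lt
    (ENNReal.add_lt_top.2 ⟨key _, key _⟩))

theorem circ (d : ℕ) (hd : 1 ≤ d) (t : ℝ) (ρ : ℝ≥0) (hρ : ρ ≤ 1) (h : 1 - t ^ 2 ≤ 4 * (ρ : ℝ) ^ 2) :
    μH[d] {x : EuclideanSpace ℝ (Fin (d + 2)) | ‖x‖ = 1 / 2 ∧ 2 * x 0 = t} ≤ ρ * μH[d] (eqs d) := by
  set r := Real.sqrt (1 - t ^ 2) / 2 with hr
  have r0 : 0 ≤ r := by positivity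
  have r1 : r ≤ ρ := by
    rw [hr, div_le_iff₀ two_pos]
    apply Real.sqrt_le_iff.2 ⟨by positivity, by linarith⟩
  set e : EuclideanSpace ℝ (Fin (d + 2)) := EuclideanSpace.single 0 (t / 2) with he
  have L : LipschitzWith ρ fun z : EuclideanSpace ℝ (Fin (d + 2)) => e + r • z :=
    LipschitzWith.of_dist_le_mul fun a b => by
      rw [dist_add_left, dist_smul₀, Real.norm_of_nonneg r0]
      gcongr
  have sub : {x : EuclideanSpace ℝ (Fin (d + 2)) | ‖x‖ = 1 / 2 ∧ 2 * x 0 = t} ⊆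
      (fun z => e + r • z) '' eqs d := by
    rintro x ⟨h1, h2⟩
    have n : ‖x - e‖ ^ 2 = (1 - t ^ 2) / 4 := by
      rw [norm_sub_sq_real, h1, he, EuclideanSpace.inner_single_right]
      simp
      rw [← h2, div_pow, sq_abs]
      ring
    have n2 : ‖x - e‖ = r := by
      rw [hr, ← Real.sqrt_sq (norm_nonneg (x - e)), n, Real.sqrt_div' _ (by norm_num),
        show (4 : ℝ) = 2 ^ 2 by norm_num, Real.sqrt_sq (by norm_num)]
    rcases r0.eq_or_lt with c | c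
    · refine ⟨EuclideanSpace.single 1 1, ⟨by simp, by simp⟩, ?_⟩
      rw [← c] at n2 ⊢
      simp [(sub_eq_zero.1 (norm_eq_zero.1 n2))]
    · refine ⟨r⁻¹ • (x - e), ⟨?_, ?_⟩, ?_⟩
      · rw [norm_smul, n2, norm_inv, Real.norm_of_nonneg r0, inv_mul_cancel₀ c.ne']
      · simp [he, ← h2]
      · simp [smul_smul, c.ne']
  refine (measure_mono sub).trans ((L.hausdorffMeasure_image_le (Nat.cast_nonneg d) _).trans ?_)
  gcongr
  calc (ρ : ℝ≥0∞) ^ (d : ℝ) ≤ (ρ : ℝ≥0∞) ^ (1 : ℝ) :=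
        ENNReal.rpow_le_rpow_of_exponent_ge (by exact_mod_cast hρ) (by exact_mod_cast hd)
    _ = ρ := ENNReal.rpow_one _

theorem main (d : ℕ) (hd : 1 ≤ d) (k : ℕ) (ε : ℝ) (hε : 0 < ε) :
    ∃ u : EuclideanSpace ℝ (Fin (d + 2)) → ℝ, (∀ x, InnerProductSpace.HarmonicAt u x) ∧
      (∃ x ∈ ball (0 : EuclideanSpace ℝ (Fin (d + 2))) 1, u x ≠ 0) ∧
      (∀ i < k, iteratedFDeriv ℝ i u 0 = 0) ∧
      μH[d] {x | ‖x‖ = 1 / 2 ∧ u x = 0} ≤ ENNReal.ofReal ε := by
  obtain ⟨D, hD⟩ := good (ν := d) (by exact_mod_cast hd) k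
  lift μH[d] (eqs d) to ℝ≥0 using (eqs_fin d).ne with A hA
  set ρ : ℝ≥0 := min (1 / 2) (ε.toNNReal / (D * A + 1)) with hρ
  have e0 : 0 < ε.toNNReal := Real.toNNReal_pos.2 hε
  have ρ0 : 0 < ρ := lt_min (by norm_num) (by positivity)
  have ρ1 : ρ ≤ 1 / 2 := min_le_left _ _
  have ρ2 : ρ ≤ ε.toNNReal / (D * A + 1) := min_le_right _ _
  have ρ1' : (ρ : ℝ) ≤ 1 / 2 := by exact_mod_cast ρ1
  have ρ0' : (0 : ℝ) < ρ := ρ0
  obtain ⟨f, hf, f0, T, T1, T2, T3⟩ := hD (2 * (ρ : ℝ) ^ 2) (by positivity) (by nlinarith)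
  obtain ⟨p, p1, p2, p3⟩ := extend d k hf
  refine ⟨ev p, ev_harm p p1, ⟨EuclideanSpace.single 1 (1 / 2), by simp; norm_num, ?_⟩, p2, ?_⟩
  · rw [p3 _ (by simp)]
    simpa using f0
  have sub : {x | ‖x‖ = 1 / 2 ∧ ev p x = 0} ⊆
      ⋃ t ∈ T, {x : EuclideanSpace ℝ (Fin (d + 2)) | ‖x‖ = 1 / 2 ∧ 2 * x 0 = t} := by
    rintro x ⟨h1, h2⟩
    rw [p3 x h1] at h2
    have := PiLp.norm_apply_le x 0
    rw [h1, Real.norm_eq_abs, abs_le] at this
    exact mem_biUnion (T3 _ ⟨by linarith, by linarith⟩ h2) ⟨h1, rfl⟩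
  refine (measure_mono sub).trans ((measure_biUnion_finset_le _ _).trans ?_)
  refine (Finset.sum_le_card_nsmul _ _ ((ρ : ℝ≥0∞) * A) fun t ht => ?_).trans ?_
  · rw [hA]
    exact circ d hd t ρ (ρ1.trans (by norm_num)) (by have := T2 t ht; linarith)
  · rw [nsmul_eq_mul, ENNReal.ofReal]
    have : (T.card : ℝ≥0) * (ρ * A) ≤ ε.toNNReal := by
      rw [le_div_iff₀ (by positivity)] at ρ2
      calc (T.card : ℝ≥0) * (ρ * A) ≤ D * (ρ * A) := by gcongr
        _ ≤ ρ * (D * A + 1) := by rw [mul_add, mul_left_comm]; exact le_self_add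
        _ ≤ _ := ρ2
    exact_mod_cast this

end Pool.Agent.H.Zon
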